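import Mathlib

set_option autoImplicit false

/-!
# Independent random 0/1 assignments: cylinders and a weighted second moment
-/

namespace Pool.Agent.H111N

open Finset

/-- the probability of the assignment `c` when the coordinates are independent and
`c e = true` has probability `p e` -/
noncomputable def wt {E : Type*} [Fintype E] (p : E → ℝ) (c : E → Bool) : ℝ :=
  ∏ e, if c e then p e else 1 - p e

variable {E : Type*} [Fintype E] [DecidableEq E]

theorem wt_nonneg {p : E → ℝ} (h0 : ∀ e, 0 ≤ p e) (h1 : ∀ e, p e ≤ 1) (c : E → Bool) :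
    0 ≤ wt p c := by
  unfold wt
  apply Finset.prod_nonneg
  intro e _
  split_ifs
  · exact h0 e
  · linarith [h1 e]

theorem sum_prod_bool (f : E → Bool → ℝ) :
    ∑ c : E → Bool, ∏ e, f e (c e) = ∏ e, (f e true + f e false) := by
  classical
  have h := Finset.prod_univ_sum (fun _ : E => (Finset.univ : Finset Bool)) f
  simp only [Fintype.piFinset_univ] at h
  rw [← h]
  apply Finset.prod_congr rfl
  intro e _
  simp

theorem sum_wt_cyl (p : E → ℝ) (F : Finset E) :
    ∑ c : E → Bool, wt p c * (if ∀ e ∈ F, c e = true then 1 else 0) = ∏ e ∈ F, p e := by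
  classical
  have h1 : ∀ c : E → Bool, wt p c * (if ∀ e ∈ F, c e = true then (1:ℝ) else 0) =
      ∏ e, ((if c e then p e else 1 - p e) * (if e ∈ F → c e = true then 1 else 0)) := by
    intro c
    rw [Finset.prod_mul_distrib]
    unfold wt
    congr 1
    rw [Finset.prod_boole]
    simp
  simp_rw [h1]
  rw [sum_prod_bool (fun e b => (if b then p e else 1 - p e) *
    (if e ∈ F → b = true then (1:ℝ) else 0))]
  rw [← Finset.prod_subset (Finset.subset_univ F)]
  · apply Finset.prod_congr rfl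
    intro e he
    simp [he]
  · intro e _ he
    simp [he]

theorem sum_wt (p : E → ℝ) : ∑ c : E → Bool, wt p c = 1 := by
  have h := sum_wt_cyl p ∅
  simpa using h

/-- weighted second moment bound -/
theorem second_moment {ι : Type*} (p : E → ℝ) (h0 : ∀ e, 0 < p e) (h1 : ∀ e, p e ≤ 1)
    (T : Finset ι) (hT : T.Nonempty) (F : ι → Finset E) :
    ∑ c ∈ univ.filter (fun c : E → Bool => ∀ i ∈ T, ¬ ∀ e ∈ F i, c e = true), wt p c ≤
      1 - (T.card : ℝ) ^ 2 / ∑ i ∈ T, ∑ j ∈ T, (∏ e ∈ F i ∩ F j, p e)⁻¹ := by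
  classical
  set ind : ι → (E → Bool) → ℝ := fun i c => if ∀ e ∈ F i, c e = true then 1 else 0 with hind
  set r : ι → ℝ := fun i => ∏ e ∈ F i, p e with hr
  have hrpos : ∀ i, 0 < r i := fun i => Finset.prod_pos fun e _ => h0 e
  set Y : (E → Bool) → ℝ := fun c => ∑ i ∈ T, ind i c / r i with hY
  have hw : ∀ c : E → Bool, 0 ≤ wt p c := wt_nonneg (fun e => (h0 e).le) h1
  -- first moment
  have hfirst : ∑ c : E → Bool, wt p c * Y c = T.card := by
    simp only [hY, Finset.mul_sum]
    rw [Finset.sum_comm]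
    have : ∀ i ∈ T, ∑ c : E → Bool, wt p c * (ind i c / r i) = 1 := by
      intro i _
      have h2 : ∀ c : E → Bool, wt p c * (ind i c / r i) = (wt p c * ind i c) / r i := by
        intro c; ring
      simp_rw [h2]
      rw [← Finset.sum_div, sum_wt_cyl p (F i)]
      exact div_self (hrpos i).ne'
    rw [Finset.sum_congr rfl this]
    simp
  -- second moment
  have hsecond : ∑ c : E → Bool, wt p c * (Y c) ^ 2 =
      ∑ i ∈ T, ∑ j ∈ T, (∏ e ∈ F i ∩ F j, p e)⁻¹ := by
    have h2 : ∀ c : E → Bool, wt p c * (Y c) ^ 2 =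
        ∑ i ∈ T, ∑ j ∈ T, (wt p c * (ind i c * ind j c)) / (r i * r j) := by
      intro c
      rw [sq, hY]
      simp only
      rw [Finset.sum_mul_sum, Finset.mul_sum]
      apply Finset.sum_congr rfl
      intro i _
      rw [Finset.mul_sum]
      apply Finset.sum_congr rfl
      intro j _
      have := (hrpos i).ne'
      have := (hrpos j).ne'
      field_simp
    simp_rw [h2]
    rw [Finset.sum_comm]
    apply Finset.sum_congr rfl
    intro i _
    rw [Finset.sum_comm]
    apply Finset.sum_congr rfl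
    intro j _
    rw [← Finset.sum_div]
    have h3 : ∀ c : E → Bool, wt p c * (ind i c * ind j c) =
        wt p c * (if ∀ e ∈ F i ∪ F j, c e = true then 1 else 0) := by
      intro c
      congr 1
      simp only [hind]
      by_cases h4 : ∀ e ∈ F i, c e = true
      · by_cases h5 : ∀ e ∈ F j, c e = true
        · have : ∀ e ∈ F i ∪ F j, c e = true := by
            intro e he
            rcases Finset.mem_union.mp he with h | h
            · exact h4 e h
            · exact h5 e h
          rw [if_pos h4, if_pos h5, if_pos this]; ring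
        · have : ¬ ∀ e ∈ F i ∪ F j, c e = true := fun h => h5 fun e he => h e (Finset.mem_union_right _ he)
          rw [if_neg h5, if_neg this]; ring
      · have : ¬ ∀ e ∈ F i ∪ F j, c e = true := fun h => h4 fun e he => h e (Finset.mem_union_left _ he)
        rw [if_neg h4, if_neg this]; ring
    simp_rw [h3]
    rw [sum_wt_cyl p (F i ∪ F j)]
    have h6 : (∏ e ∈ F i ∪ F j, p e) * ∏ e ∈ F i ∩ F j, p e = r i * r j :=
      Finset.prod_union_inter
    have h7 : 0 < ∏ e ∈ F i ∩ F j, p e := Finset.prod_pos fun e _ => h0 e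
    rw [← h6]
    have h8 : 0 < ∏ e ∈ F i ∪ F j, p e := Finset.prod_pos fun e _ => h0 e
    field_simp
  set B := ∑ i ∈ T, ∑ j ∈ T, (∏ e ∈ F i ∩ F j, p e)⁻¹ with hB
  have hBpos : 0 < B := by
    apply Finset.sum_pos _ hT
    intro i _
    apply Finset.sum_pos _ hT
    intro j _
    exact inv_pos.mpr (Finset.prod_pos fun e _ => h0 e)
  -- the good and the bad event
  set A : Finset (E → Bool) := univ.filter (fun c : E → Bool => ∀ i ∈ T, ¬ ∀ e ∈ F i, c e = true)
    with hA
  have hY0 : ∀ c ∈ A, Y c = 0 := by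
    intro c hc
    simp only [hA, Finset.mem_filter, Finset.mem_univ, true_and] at hc
    apply Finset.sum_eq_zero
    intro i hi
    simp only [hind]
    rw [if_neg (hc i hi)]; simp
  have hsplit : ∑ c ∈ A, wt p c + ∑ c ∈ Aᶜ, wt p c = 1 := by
    rw [Finset.sum_add_sum_compl, sum_wt]
  have hcs : (T.card : ℝ) ^ 2 ≤ B * ∑ c ∈ Aᶜ, wt p c := by
    have h9 : ∑ c ∈ Aᶜ, wt p c * Y c = T.card := by
      rw [← hfirst, ← Finset.sum_add_sum_compl A]
      rw [Finset.sum_eq_zero (s := A) (fun c hc => by rw [hY0 c hc]; ring)]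
      ring
    have h10 : (∑ c ∈ Aᶜ, Real.sqrt (wt p c) * Y c * Real.sqrt (wt p c)) ^ 2 ≤
        (∑ c ∈ Aᶜ, (Real.sqrt (wt p c) * Y c) ^ 2) * ∑ c ∈ Aᶜ, (Real.sqrt (wt p c)) ^ 2 :=
      Finset.sum_mul_sq_le_sq_mul_sq _ _ _
    have h11 : ∑ c ∈ Aᶜ, Real.sqrt (wt p c) * Y c * Real.sqrt (wt p c) = T.card := by
      rw [← h9]
      apply Finset.sum_congr rfl
      intro c _
      have := Real.mul_self_sqrt (hw c)
      calc Real.sqrt (wt p c) * Y c * Real.sqrt (wt p c)
          = (Real.sqrt (wt p c) * Real.sqrt (wt p c)) * Y c := by ring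
        _ = wt p c * Y c := by rw [this]
    have h12 : ∑ c ∈ Aᶜ, (Real.sqrt (wt p c)) ^ 2 = ∑ c ∈ Aᶜ, wt p c := by
      apply Finset.sum_congr rfl
      intro c _
      exact Real.sq_sqrt (hw c)
    have h13 : ∑ c ∈ Aᶜ, (Real.sqrt (wt p c) * Y c) ^ 2 ≤ B := by
      rw [← hsecond]
      calc ∑ c ∈ Aᶜ, (Real.sqrt (wt p c) * Y c) ^ 2
          = ∑ c ∈ Aᶜ, wt p c * (Y c) ^ 2 := by
            apply Finset.sum_congr rfl
            intro c _
            rw [mul_pow, Real.sq_sqrt (hw c)]
        _ ≤ ∑ c : E → Bool, wt p c * (Y c) ^ 2 := by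
            apply Finset.sum_le_sum_of_subset_of_nonneg (Finset.subset_univ _)
            intro c _ _
            exact mul_nonneg (hw c) (sq_nonneg _)
    rw [h11, h12] at h10
    refine h10.trans ?_
    apply mul_le_mul_of_nonneg_right h13
    exact Finset.sum_nonneg fun c _ => hw c
  have h14 : (T.card : ℝ) ^ 2 / B ≤ ∑ c ∈ Aᶜ, wt p c := by
    rw [div_le_iff₀ hBpos]
    linarith [hcs, mul_comm B (∑ c ∈ Aᶜ, wt p c)]
  linarith

end Pool.Agent.H111N
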