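import Mathlib

set_option autoImplicit false

/-!
# A large subset in which all weighted degrees are at most the average
-/

namespace Pool.Agent.H111N

open Finset

/-- `Σ_{x,y ∈ W} w x y` -/
def tot {V : Type*} (w : V → V → ℝ) (W : Finset V) : ℝ := ∑ x ∈ W, ∑ y ∈ W, w x y

theorem tot_erase {V : Type*} [DecidableEq V] (w : V → V → ℝ) (hsymm : ∀ x y, w x y = w y x)
    (W : Finset V) {x : V} (hx : x ∈ W) :
    tot w (W.erase x) = tot w W - 2 * ∑ y ∈ W, w x y + w x x := by
  unfold tot
  have h1 : ∀ z : V, ∑ y ∈ W.erase x, w z y = ∑ y ∈ W, w z y - w z x := by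
    intro z
    rw [← Finset.add_sum_erase W (fun y => w z y) hx]; ring
  have h2 : ∑ z ∈ W.erase x, ∑ y ∈ W.erase x, w z y =
      ∑ z ∈ W, (∑ y ∈ W, w z y - w z x) - (∑ y ∈ W, w x y - w x x) := by
    simp_rw [h1]
    rw [← Finset.add_sum_erase W (fun z => ∑ y ∈ W, w z y - w z x) hx]; ring
  rw [h2, Finset.sum_sub_distrib]
  have h3 : ∑ z ∈ W, w z x = ∑ y ∈ W, w x y := Finset.sum_congr rfl fun y _ => hsymm y x
  rw [h3]; ring

theorem clean {V : Type*} [Fintype V] [Nonempty V] (w : V → V → ℝ)
    (hsymm : ∀ x y, w x y = w y x) (hdiag : ∀ x, w x x = 0) (hnonneg : ∀ x y, 0 ≤ w x y)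
    (M τ : ℝ) (hτ : 0 < τ) (hM : tot w univ ≤ M * (Fintype.card V : ℝ) ^ 2) :
    ∃ W : Finset V, W.Nonempty ∧ (Fintype.card V : ℝ) * Real.exp (-(M / τ)) ≤ W.card ∧
      ∀ x ∈ W, ∑ y ∈ W, w x y ≤ (M + τ / 2) * W.card := by
  classical
  set Φ : Finset V → ℝ := fun W => tot w W / (W.card : ℝ) ^ 2 - τ * Real.log W.card with hΦ
  obtain ⟨W, hW, hmin⟩ := Finset.exists_min_image
    ((univ : Finset V).powerset.filter (fun W => W.Nonempty)) Φ
    ⟨univ, by simp⟩
  have hWne : W.Nonempty := (Finset.mem_filter.mp hW).2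
  have hNpos : (0:ℝ) < Fintype.card V := by exact_mod_cast Fintype.card_pos
  have hnpos : (0:ℝ) < W.card := by exact_mod_cast hWne.card_pos
  have hV : Φ W ≤ Φ univ := hmin univ (by simp)
  have htot0 : 0 ≤ tot w W := Finset.sum_nonneg fun x _ => Finset.sum_nonneg fun y _ => hnonneg x y
  have hQV : tot w univ / (Fintype.card V : ℝ) ^ 2 ≤ M := by
    rw [div_le_iff₀ (by positivity)]; exact hM
  have hΦu : Φ univ = tot w univ / (Fintype.card V : ℝ) ^ 2 - τ * Real.log (Fintype.card V) := by
    simp only [hΦ, Finset.card_univ]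
  have hcardle : (W.card : ℝ) ≤ Fintype.card V := by
    exact_mod_cast Finset.card_le_univ W
  have hlogle : Real.log W.card ≤ Real.log (Fintype.card V) := Real.log_le_log hnpos hcardle
  have hQ : tot w W / (W.card : ℝ) ^ 2 ≤ M := by
    have h1 : tot w W / (W.card : ℝ) ^ 2 - τ * Real.log W.card ≤
        tot w univ / (Fintype.card V : ℝ) ^ 2 - τ * Real.log (Fintype.card V) := by
      rw [← hΦu]; exact hV
    nlinarith
  refine ⟨W, hWne, ?_, ?_⟩
  · have h1 : tot w W / (W.card : ℝ) ^ 2 - τ * Real.log W.card ≤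
        tot w univ / (Fintype.card V : ℝ) ^ 2 - τ * Real.log (Fintype.card V) := by
      rw [← hΦu]; exact hV
    have h2 : 0 ≤ tot w W / (W.card : ℝ) ^ 2 := by positivity
    have h3 : τ * (Real.log (Fintype.card V) - Real.log W.card) ≤ M := by
      nlinarith
    have h4 : Real.log (Fintype.card V) - Real.log W.card ≤ M / τ := by
      rw [le_div_iff₀ hτ]; linarith [mul_comm τ (Real.log (Fintype.card V) - Real.log W.card)]
    have h5 : Real.log (Fintype.card V) + (-(M / τ)) ≤ Real.log W.card := by linarith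
    calc (Fintype.card V : ℝ) * Real.exp (-(M / τ))
        = Real.exp (Real.log (Fintype.card V) + (-(M / τ))) := by
          rw [Real.exp_add, Real.exp_log hNpos]
      _ ≤ Real.exp (Real.log W.card) := Real.exp_le_exp.mpr h5
      _ = W.card := Real.exp_log hnpos
  · intro x hx
    set d := ∑ y ∈ W, w x y with hd
    by_cases hone : W.card = 1
    · obtain ⟨a, ha⟩ := Finset.card_eq_one.mp hone
      have hxa : x = a := by rw [ha] at hx; simpa using hx
      have hd0 : d = 0 := by rw [hd, ha, Finset.sum_singleton, hxa, hdiag]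
      rw [hd0]
      have hM0 : 0 ≤ M := by
        refine le_trans ?_ hQ
        positivity
      positivity
    · have hge2 : 2 ≤ W.card := by
        have := hWne.card_pos
        omega
      have hcard : (W.erase x).card = W.card - 1 := Finset.card_erase_of_mem hx
      have hne : (W.erase x).Nonempty := by
        rw [← Finset.card_pos, hcard]; omega
      have hm := hmin (W.erase x) (by
        simp only [Finset.mem_filter, Finset.mem_powerset]
        exact ⟨Finset.subset_univ _, hne⟩)
      simp only [hΦ] at hm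
      rw [tot_erase w hsymm W hx, hdiag, add_zero, ← hd] at hm
      have hcast : (((W.erase x).card : ℕ) : ℝ) = (W.card : ℝ) - 1 := by
        rw [hcard]; push_cast [Nat.cast_sub (show 1 ≤ W.card by omega)]; ring
      rw [hcast] at hm
      set n : ℝ := (W.card : ℝ) with hn
      have hn2 : 2 ≤ n := by rw [hn]; exact_mod_cast hge2
      have hn1 : 0 < n - 1 := by linarith
      -- log n - log (n-1) ≤ 1/(n-1)
      have hlog : Real.log n - Real.log (n - 1) ≤ 1 / (n - 1) := by
        rw [← Real.log_div (by linarith) (by linarith)]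
        have h6 : n / (n - 1) = 1 / (n - 1) + 1 := by field_simp; ring
        rw [h6]
        have := Real.log_le_sub_one_of_pos (show 0 < 1 / (n - 1) + 1 by positivity)
        linarith
      set t := tot w W with ht
      have h7 : t / n ^ 2 ≤ (t - 2 * d) / (n - 1) ^ 2 + τ * (Real.log n - Real.log (n - 1)) := by
        linarith
      have h8 : t / n ^ 2 ≤ (t - 2 * d) / (n - 1) ^ 2 + τ * (1 / (n - 1)) := by
        refine h7.trans ?_
        have := mul_le_mul_of_nonneg_left hlog hτ.le
        linarith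
      have h9 : t / n ^ 2 * (n - 1) ^ 2 ≤ t - 2 * d + τ * (n - 1) := by
        have h10 := mul_le_mul_of_nonneg_right h8 (sq_nonneg (n - 1))
        have h11 : ((t - 2 * d) / (n - 1) ^ 2 + τ * (1 / (n - 1))) * (n - 1) ^ 2 =
            t - 2 * d + τ * (n - 1) := by
          field_simp
        rwa [h11] at h10
      set q := t / n ^ 2 with hq
      have hqt : t = q * n ^ 2 := by rw [hq]; field_simp
      have hq0 : 0 ≤ q := by rw [hq]; positivity
      -- 2 d ≤ t - q (n-1)^2 + τ (n-1) = q (2n-1) + τ (n-1)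
      have h12 : 2 * d ≤ q * (2 * n - 1) + τ * (n - 1) := by nlinarith
      nlinarith

end Pool.Agent.H111N
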