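import Mathlib

set_option autoImplicit false

/-!
# Typical sequences
-/

namespace Pool.Agent.H111N

open Finset

variable {V : Type*} [DecidableEq V]

/-- sequences of length `k` in `W` -/
abbrev Seqs (k : ℕ) (W : Finset V) : Finset (Fin k → V) := Fintype.piFinset (fun _ : Fin k => W)

theorem card_seqs (k : ℕ) (W : Finset V) : (Seqs k W).card = W.card ^ k := by
  simp [Seqs]

theorem exp_sum_le (W : Finset V) (w : V → V → ℝ) (x : V) (D Λ θ : ℝ)
    (hD : ∑ y ∈ W, w x y ≤ D * W.card) (hw0 : ∀ y, 0 ≤ w x y) (hwΛ : ∀ y, w x y ≤ Λ)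
    (hθ : 0 < θ) (hθΛ : θ * Λ ≤ 1) :
    ∑ y ∈ W, Real.exp (θ * w x y) ≤ W.card * Real.exp (θ * D + θ ^ 2 * Λ ^ 2) := by
  have h1 : ∀ y ∈ W, Real.exp (θ * w x y) ≤ 1 + θ * w x y + θ ^ 2 * Λ ^ 2 := by
    intro y _
    have h2 : 0 ≤ θ * w x y := mul_nonneg hθ.le (hw0 y)
    have h3 : θ * w x y ≤ θ * Λ := mul_le_mul_of_nonneg_left (hwΛ y) hθ.le
    have h4 : |θ * w x y| ≤ 1 := by rw [abs_of_nonneg h2]; linarith
    have h5 := Real.abs_exp_sub_one_sub_id_le h4
    have h6 := (abs_le.mp h5).2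
    have h7 : (θ * w x y) ^ 2 ≤ θ ^ 2 * Λ ^ 2 := by
      rw [← mul_pow]
      exact pow_le_pow_left₀ h2 h3 2
    linarith
  calc ∑ y ∈ W, Real.exp (θ * w x y) ≤ ∑ y ∈ W, (1 + θ * w x y + θ ^ 2 * Λ ^ 2) :=
        Finset.sum_le_sum h1
    _ = W.card + θ * (∑ y ∈ W, w x y) + W.card * (θ ^ 2 * Λ ^ 2) := by
        rw [Finset.sum_add_distrib, Finset.sum_add_distrib, ← Finset.mul_sum]
        simp
    _ ≤ W.card * (1 + (θ * D + θ ^ 2 * Λ ^ 2)) := by
        have := mul_le_mul_of_nonneg_left hD hθ.le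
        nlinarith
    _ ≤ W.card * Real.exp (θ * D + θ ^ 2 * Λ ^ 2) := by
        apply mul_le_mul_of_nonneg_left _ (Nat.cast_nonneg _)
        have := Real.add_one_le_exp (θ * D + θ ^ 2 * Λ ^ 2)
        linarith

theorem bad_card (k : ℕ) (W : Finset V) (w : V → V → ℝ) (D Λ θ ε : ℝ)
    (hdiag : ∀ x, w x x = 0)
    (hD : ∀ x ∈ W, ∑ y ∈ W, w x y ≤ D * W.card) (hw0 : ∀ x y, 0 ≤ w x y)
    (hwΛ : ∀ x y, w x y ≤ Λ) (hD0 : 0 ≤ D)
    (hθ : 0 < θ) (hθΛ : θ * Λ ≤ 1) (i : Fin k) :
    (((Seqs k W).filter (fun s => (D + ε) * k < ∑ j, w (s i) (s j))).card : ℝ) ≤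
      (W.card : ℝ) ^ k * Real.exp (-(θ * ε * k) + θ ^ 2 * Λ ^ 2 * k) := by
  classical
  set A : ℝ := Real.exp (θ * D + θ ^ 2 * Λ ^ 2) with hA
  have hA1 : 1 ≤ A := Real.one_le_exp (by positivity)
  set g : V → Fin k → V → ℝ := fun x j y =>
    if j = i then (if y = x then 1 else 0) else Real.exp (θ * w x y) with hg
  have hg0 : ∀ x j y, 0 ≤ g x j y := by
    intro x j y
    simp only [hg]
    split_ifs
    · exact zero_le_one
    · exact le_rfl
    · exact (Real.exp_pos _).le
  have hkpos : 0 < k := i.pos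
  have h1 : ∑ s ∈ Seqs k W, Real.exp (θ * ∑ j, w (s i) (s j)) ≤
      ∑ s ∈ Seqs k W, ∑ x ∈ W, ∏ j, g x j (s j) := by
    apply Finset.sum_le_sum
    intro s hs
    have hsi : s i ∈ W := (Fintype.mem_piFinset.mp hs) i
    have h2 : Real.exp (θ * ∑ j, w (s i) (s j)) = ∏ j, g (s i) j (s j) := by
      rw [Finset.mul_sum, Real.exp_sum]
      apply Finset.prod_congr rfl
      intro j _
      simp only [hg]
      by_cases hj : j = i
      · subst hj
        simp [hdiag]
      · rw [if_neg hj]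
    rw [h2]
    exact Finset.single_le_sum (f := fun x => ∏ j, g x j (s j))
      (fun x _ => Finset.prod_nonneg fun j _ => hg0 x j (s j)) hsi
  have h3 : ∑ s ∈ Seqs k W, ∑ x ∈ W, ∏ j, g x j (s j) = ∑ x ∈ W, ∏ j, ∑ y ∈ W, g x j y := by
    rw [Finset.sum_comm]
    apply Finset.sum_congr rfl
    intro x _
    rw [Finset.prod_univ_sum (fun _ : Fin k => W) (g x)]
  have h4 : ∀ x ∈ W, ∏ j, ∑ y ∈ W, g x j y ≤ ((W.card : ℝ) * A) ^ (k - 1) := by
    intro x hx
    rw [← Finset.mul_prod_erase Finset.univ _ (Finset.mem_univ i)]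
    have h5 : ∑ y ∈ W, g x i y = 1 := by
      simp [hg, hx]
    rw [h5, one_mul]
    calc ∏ j ∈ univ.erase i, ∑ y ∈ W, g x j y ≤ ∏ j ∈ univ.erase i, ((W.card : ℝ) * A) := by
          apply Finset.prod_le_prod
          · intro j _
            exact Finset.sum_nonneg fun y _ => hg0 x j y
          · intro j hj
            have hji : j ≠ i := Finset.ne_of_mem_erase hj
            simp only [hg, if_neg hji]
            exact exp_sum_le W w x D Λ θ (hD x hx) (hw0 x) (hwΛ x) hθ hθΛ
      _ = ((W.card : ℝ) * A) ^ (k - 1) := by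
          rw [Finset.prod_const, Finset.card_erase_of_mem (Finset.mem_univ i)]
          simp
  have h6 : ∑ s ∈ Seqs k W, Real.exp (θ * ∑ j, w (s i) (s j)) ≤ (W.card : ℝ) ^ k * A ^ k := by
    refine h1.trans ?_
    rw [h3]
    calc ∑ x ∈ W, ∏ j, ∑ y ∈ W, g x j y ≤ ∑ x ∈ W, ((W.card : ℝ) * A) ^ (k - 1) :=
          Finset.sum_le_sum h4
      _ = (W.card : ℝ) ^ k * A ^ (k - 1) := by
          rw [Finset.sum_const, nsmul_eq_mul, mul_pow, ← mul_assoc, ← pow_succ']
          congr 2
          omega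
      _ ≤ (W.card : ℝ) ^ k * A ^ k := by
          apply mul_le_mul_of_nonneg_left _ (by positivity)
          exact pow_le_pow_right₀ hA1 (by omega)
  set bad := (Seqs k W).filter (fun s => (D + ε) * k < ∑ j, w (s i) (s j)) with hbad
  have h7 : (bad.card : ℝ) * Real.exp (θ * ((D + ε) * k)) ≤ (W.card : ℝ) ^ k * A ^ k := by
    refine le_trans ?_ h6
    calc (bad.card : ℝ) * Real.exp (θ * ((D + ε) * k))
        = ∑ s ∈ bad, Real.exp (θ * ((D + ε) * k)) := by rw [Finset.sum_const, nsmul_eq_mul]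
      _ ≤ ∑ s ∈ bad, Real.exp (θ * ∑ j, w (s i) (s j)) := by
          apply Finset.sum_le_sum
          intro s hs
          apply Real.exp_le_exp.mpr
          exact mul_le_mul_of_nonneg_left (Finset.mem_filter.mp hs).2.le hθ.le
      _ ≤ ∑ s ∈ Seqs k W, Real.exp (θ * ∑ j, w (s i) (s j)) :=
          Finset.sum_le_sum_of_subset_of_nonneg (Finset.filter_subset _ _)
            (fun s _ _ => (Real.exp_pos _).le)
  have h8 : A ^ k = Real.exp (k * (θ * D + θ ^ 2 * Λ ^ 2)) := by
    rw [hA, ← Real.exp_nat_mul]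
  have h9 : (bad.card : ℝ) ≤ (W.card : ℝ) ^ k * A ^ k * Real.exp (-(θ * ((D + ε) * k))) := by
    rw [Real.exp_neg, ← div_eq_mul_inv, le_div_iff₀ (Real.exp_pos _)]
    exact h7
  refine h9.trans (le_of_eq ?_)
  rw [h8, mul_assoc, ← Real.exp_add]
  congr 2
  ring

theorem noninj_card (k : ℕ) (W : Finset V) :
    (((Seqs k W).filter (fun s => ¬ Function.Injective s)).card : ℝ) ≤
      (k : ℝ) ^ 2 * (W.card : ℝ) ^ (k - 1) := by
  classical
  have hpair : ∀ i j : Fin k, i ≠ j →
      ((Seqs k W).filter (fun s => s i = s j)).card ≤ W.card ^ (k - 1) := by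
    intro i j hij
    have h1 : (Fintype.piFinset (fun _ : {l : Fin k // l ≠ i} => W)).card = W.card ^ (k - 1) := by
      rw [Fintype.card_piFinset, Finset.prod_const, Finset.card_univ, Fintype.card_subtype_compl]
      simp
    rw [← h1]
    apply Finset.card_le_card_of_injOn (fun s (l : {l : Fin k // l ≠ i}) => s l.1)
    · intro s hs
      have := (Finset.mem_filter.mp (Finset.mem_coe.mp hs)).1
      simp only [Finset.mem_coe]
      rw [Fintype.mem_piFinset]
      intro l
      exact (Fintype.mem_piFinset.mp this) l.1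
    · intro s hs t ht hst
      have hs2 := (Finset.mem_filter.mp (Finset.mem_coe.mp hs)).2
      have ht2 := (Finset.mem_filter.mp (Finset.mem_coe.mp ht)).2
      have hl : ∀ l : Fin k, l ≠ i → s l = t l := fun l hl => congrFun hst ⟨l, hl⟩
      funext l
      by_cases h : l = i
      · subst h
        rw [hs2, ht2]
        exact hl j (Ne.symm hij)
      · exact hl l h
  have hsub : (Seqs k W).filter (fun s => ¬ Function.Injective s) ⊆
      ((univ : Finset (Fin k × Fin k)).filter (fun q => q.1 ≠ q.2)).biUnion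
        (fun q => (Seqs k W).filter (fun s => s q.1 = s q.2)) := by
    intro s hs
    obtain ⟨h1, h2⟩ := Finset.mem_filter.mp hs
    rw [Function.Injective] at h2
    push_neg at h2
    obtain ⟨a, b, hab, hne⟩ := h2
    rw [Finset.mem_biUnion]
    exact ⟨(a, b), by simp [hne], Finset.mem_filter.mpr ⟨h1, hab⟩⟩
  have h3 : ((Seqs k W).filter (fun s => ¬ Function.Injective s)).card ≤ k ^ 2 * W.card ^ (k - 1) := by
    refine (Finset.card_le_card hsub).trans ?_
    refine (Finset.card_biUnion_le).trans ?_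
    calc ∑ q ∈ (univ : Finset (Fin k × Fin k)).filter (fun q => q.1 ≠ q.2),
          ((Seqs k W).filter (fun s => s q.1 = s q.2)).card
        ≤ ∑ q ∈ (univ : Finset (Fin k × Fin k)).filter (fun q => q.1 ≠ q.2), W.card ^ (k - 1) := by
          apply Finset.sum_le_sum
          intro q hq
          exact hpair q.1 q.2 (Finset.mem_filter.mp hq).2
      _ ≤ ∑ q : Fin k × Fin k, W.card ^ (k - 1) :=
          Finset.sum_le_sum_of_subset (Finset.filter_subset _ _)
      _ = k ^ 2 * W.card ^ (k - 1) := by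
          rw [Finset.sum_const, smul_eq_mul]
          simp [sq]
  exact_mod_cast h3

/-- the good sequences: injective, and every vertex has weighted degree at most `(D+ε)k` -/
noncomputable def Good (k : ℕ) (W : Finset V) (w : V → V → ℝ) (B : ℝ) : Finset (Fin k → V) := by
  classical
  exact (Seqs k W).filter (fun s => Function.Injective s ∧ ∀ i, ∑ j, w (s i) (s j) ≤ B)

theorem good_card (k : ℕ) (W : Finset V) (hW : W.Nonempty) (w : V → V → ℝ) (D Λ θ ε : ℝ)
    (hdiag : ∀ x, w x x = 0)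
    (hD : ∀ x ∈ W, ∑ y ∈ W, w x y ≤ D * W.card) (hw0 : ∀ x y, 0 ≤ w x y)
    (hwΛ : ∀ x y, w x y ≤ Λ) (hD0 : 0 ≤ D) (hk : 0 < k)
    (hθ : 0 < θ) (hθΛ : θ * Λ ≤ 1) :
    (W.card : ℝ) ^ k * (1 - (k : ℝ) ^ 2 / W.card -
        k * Real.exp (-(θ * ε * k) + θ ^ 2 * Λ ^ 2 * k)) ≤
      (Good k W w ((D + ε) * k)).card := by
  classical
  have hn : (0:ℝ) < W.card := by exact_mod_cast hW.card_pos
  have hcover : Seqs k W ⊆ Good k W w ((D + ε) * k) ∪
      ((Seqs k W).filter (fun s => ¬ Function.Injective s) ∪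
        univ.biUnion (fun i : Fin k =>
          (Seqs k W).filter (fun s => (D + ε) * k < ∑ j, w (s i) (s j)))) := by
    intro s hs
    by_cases h1 : Function.Injective s
    · by_cases h2 : ∀ i, ∑ j, w (s i) (s j) ≤ (D + ε) * k
      · apply Finset.mem_union_left
        simp only [Good, Finset.mem_filter]
        exact ⟨hs, h1, h2⟩
      · push_neg at h2
        obtain ⟨i, hi⟩ := h2
        apply Finset.mem_union_right
        apply Finset.mem_union_right
        rw [Finset.mem_biUnion]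
        exact ⟨i, Finset.mem_univ i, Finset.mem_filter.mpr ⟨hs, hi⟩⟩
    · apply Finset.mem_union_right
      apply Finset.mem_union_left
      exact Finset.mem_filter.mpr ⟨hs, h1⟩
  have h3 : (W.card : ℝ) ^ k ≤ (Good k W w ((D + ε) * k)).card +
      ((k : ℝ) ^ 2 * (W.card : ℝ) ^ (k - 1) +
        k * ((W.card : ℝ) ^ k * Real.exp (-(θ * ε * k) + θ ^ 2 * Λ ^ 2 * k))) := by
    have h4 : ((Seqs k W).card : ℝ) = (W.card : ℝ) ^ k := by
      rw [card_seqs]; push_cast; ring
    have h5 := (Finset.card_le_card hcover).trans (Finset.card_union_le _ _)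
    have h6 := Finset.card_union_le ((Seqs k W).filter (fun s => ¬ Function.Injective s))
      (univ.biUnion (fun i : Fin k =>
          (Seqs k W).filter (fun s => (D + ε) * k < ∑ j, w (s i) (s j))))
    have h7 : ((univ.biUnion (fun i : Fin k =>
          (Seqs k W).filter (fun s => (D + ε) * k < ∑ j, w (s i) (s j)))).card : ℝ) ≤
        k * ((W.card : ℝ) ^ k * Real.exp (-(θ * ε * k) + θ ^ 2 * Λ ^ 2 * k)) := by
      have h8 : ((univ.biUnion (fun i : Fin k =>
          (Seqs k W).filter (fun s => (D + ε) * k < ∑ j, w (s i) (s j)))).card : ℝ) ≤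
          ∑ i : Fin k, (((Seqs k W).filter
            (fun s => (D + ε) * k < ∑ j, w (s i) (s j))).card : ℝ) := by
        exact_mod_cast Finset.card_biUnion_le
      refine h8.trans ?_
      calc ∑ i : Fin k, (((Seqs k W).filter
            (fun s => (D + ε) * k < ∑ j, w (s i) (s j))).card : ℝ)
          ≤ ∑ i : Fin k, ((W.card : ℝ) ^ k * Real.exp (-(θ * ε * k) + θ ^ 2 * Λ ^ 2 * k)) :=
            Finset.sum_le_sum fun i _ =>
              bad_card k W w D Λ θ ε hdiag hD hw0 hwΛ hD0 hθ hθΛ i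
        _ = _ := by rw [Finset.sum_const, nsmul_eq_mul]; simp
    have h9 := noninj_card k W
    have h10 : ((Seqs k W).card : ℝ) ≤ (Good k W w ((D + ε) * k)).card +
        ((((Seqs k W).filter (fun s => ¬ Function.Injective s)).card : ℝ) +
        ((univ.biUnion (fun i : Fin k =>
          (Seqs k W).filter (fun s => (D + ε) * k < ∑ j, w (s i) (s j)))).card : ℝ)) := by
      have h11 := h5.trans (Nat.add_le_add_left h6 _)
      exact_mod_cast h11
    rw [h4] at h10
    linarith
  have h12 : (k : ℝ) ^ 2 * (W.card : ℝ) ^ (k - 1) = (W.card : ℝ) ^ k * ((k : ℝ) ^ 2 / W.card) := by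
    have : (W.card : ℝ) ^ k = (W.card : ℝ) ^ (k - 1) * W.card := by
      rw [← pow_succ]; congr 1; omega
    rw [this]; field_simp
  rw [h12] at h3
  nlinarith [h3]

theorem hit_sum (k : ℕ) (W S : Finset V) (X : ℝ) (hX : 1 ≤ X) :
    ∑ t ∈ Seqs k W, X ^ (univ.filter (fun i => t i ∈ S)).card ≤
      ((W.card : ℝ) + S.card * X) ^ k := by
  classical
  have h1 : ∀ t : Fin k → V, X ^ (univ.filter (fun i => t i ∈ S)).card =
      ∏ i : Fin k, (if t i ∈ S then X else 1) := by
    intro t
    rw [Finset.prod_ite, Finset.prod_const, Finset.prod_const_one, mul_one]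
  simp_rw [h1]
  have h2 := Finset.prod_univ_sum (fun _ : Fin k => W) (fun _ y => if y ∈ S then X else (1:ℝ))
  rw [← h2]
  rw [Finset.prod_const, Finset.card_univ, Fintype.card_fin]
  apply pow_le_pow_left₀
  · apply Finset.sum_nonneg
    intro y _
    split_ifs
    · linarith
    · exact zero_le_one
  · calc ∑ y ∈ W, (if y ∈ S then X else (1:ℝ)) ≤ ∑ y ∈ W, (1 + if y ∈ S then X else 0) := by
          apply Finset.sum_le_sum
          intro y _
          split_ifs <;> linarith
      _ = W.card + ∑ y ∈ W, (if y ∈ S then X else (0:ℝ)) := by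
          rw [Finset.sum_add_distrib]; simp
      _ ≤ W.card + S.card * X := by
          have h3 : ∑ y ∈ W, (if y ∈ S then X else (0:ℝ)) = (W.filter (· ∈ S)).card * X := by
            rw [← Finset.sum_filter, Finset.sum_const, nsmul_eq_mul]
          rw [h3]
          have h4 : (W.filter (· ∈ S)).card ≤ S.card :=
            Finset.card_le_card fun y hy => (Finset.mem_filter.mp hy).2
          have h5 : ((W.filter (· ∈ S)).card : ℝ) ≤ S.card := by exact_mod_cast h4
          have h6 := mul_le_mul_of_nonneg_right h5 (by linarith : (0:ℝ) ≤ X)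
          linarith

end Pool.Agent.H111N
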