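import Mathlib
import Pool.Agent.H111N.Moment
import Pool.Agent.H111N.Typical

set_option autoImplicit false

/-!
# Edge sets of vertex sets, and the second moment for cliques
-/

namespace Pool.Agent.H111N

open Finset

variable {N : ℕ}

/-- the non-loops inside `U` -/
def edg (U : Finset (Fin N)) : Finset (Sym2 (Fin N)) := U.sym2.filter (fun e => ¬ e.IsDiag)

theorem mem_edg (U : Finset (Fin N)) (x y : Fin N) : s(x, y) ∈ edg U ↔ (x ∈ U ∧ y ∈ U) ∧ x ≠ y := by
  unfold edg
  rw [Finset.mem_filter, Finset.mk_mem_sym2_iff, Sym2.mk_isDiag_iff]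

theorem edg_inter (U W : Finset (Fin N)) : edg U ∩ edg W = edg (U ∩ W) := by
  ext e
  induction e using Sym2.ind with
  | _ x y =>
    rw [Finset.mem_inter, mem_edg, mem_edg, mem_edg, Finset.mem_inter, Finset.mem_inter]
    tauto

/-- the weight `-log p` off the diagonal -/
noncomputable def lw (p : Sym2 (Fin N) → ℝ) (x y : Fin N) : ℝ :=
  if x = y then 0 else -Real.log (p s(x, y))

theorem lw_symm (p : Sym2 (Fin N) → ℝ) (x y : Fin N) : lw p x y = lw p y x := by
  unfold lw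
  rw [Sym2.eq_swap]
  by_cases h : x = y
  · rw [if_pos h, if_pos h.symm]
  · rw [if_neg h, if_neg (Ne.symm h)]

theorem lw_diag (p : Sym2 (Fin N) → ℝ) (x : Fin N) : lw p x x = 0 := by
  unfold lw; simp

theorem sum_edg (p : Sym2 (Fin N) → ℝ) (U : Finset (Fin N)) :
    2 * ∑ e ∈ edg U, -Real.log (p e) = ∑ x ∈ U, ∑ y ∈ U, lw p x y := by
  unfold edg
  rw [Finset.sum_sym2_filter_not_isDiag]
  have h1 : ∑ x ∈ U, ∑ y ∈ U, lw p x y = ∑ q ∈ U.offDiag, -Real.log (p s(q.1, q.2)) := by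
    rw [← Finset.sum_product']
    have h3 : ∑ q ∈ U.offDiag, lw p q.1 q.2 = ∑ q ∈ U ×ˢ U, lw p q.1 q.2 := by
      apply Finset.sum_subset
      · intro q hq
        rw [Finset.mem_offDiag] at hq
        exact Finset.mem_product.mpr ⟨hq.1, hq.2.1⟩
      · intro q hq hn
        rw [Finset.mem_offDiag] at hn
        rw [Finset.mem_product] at hq
        have h4 : q.1 = q.2 := by
          by_contra h
          exact hn ⟨hq.1, hq.2, h⟩
        unfold lw
        rw [if_pos h4]
    rw [← h3]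
    apply Finset.sum_congr rfl
    intro q hq
    rw [Finset.mem_offDiag] at hq
    unfold lw
    rw [if_neg hq.2.2]
  rw [h1, ← Finset.sum_filter_add_sum_filter_not U.offDiag (fun q => q.1 < q.2)]
  have h2 : ∑ q ∈ U.offDiag with ¬ q.1 < q.2, -Real.log (p s(q.1, q.2)) =
      ∑ q ∈ U.offDiag with q.1 < q.2, -Real.log (p s(q.1, q.2)) := by
    apply Finset.sum_nbij' (fun q => (q.2, q.1)) (fun q => (q.2, q.1))
    · intro q hq
      simp only [Finset.mem_filter, Finset.mem_offDiag] at hq ⊢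
      obtain ⟨⟨a, b, c⟩, d⟩ := hq
      exact ⟨⟨b, a, Ne.symm c⟩, lt_of_le_of_ne (not_lt.mp d) (Ne.symm c)⟩
    · intro q hq
      simp only [Finset.mem_filter, Finset.mem_offDiag] at hq ⊢
      obtain ⟨⟨a, b, c⟩, d⟩ := hq
      exact ⟨⟨b, a, Ne.symm c⟩, not_lt.mpr d.le⟩
    · intro q _; rfl
    · intro q _; rfl
    · intro q _
      show -Real.log (p s(q.1, q.2)) = -Real.log (p s(q.2, q.1))
      rw [Sym2.eq_swap]
  rw [h2]; ring

theorem prod_inv_edg (p : Sym2 (Fin N) → ℝ) (hp : ∀ e, 0 < p e) (U : Finset (Fin N)) :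
    (∏ e ∈ edg U, p e)⁻¹ = Real.exp ((∑ x ∈ U, ∑ y ∈ U, lw p x y) / 2) := by
  rw [← sum_edg]
  have h1 : 2 * ∑ e ∈ edg U, -Real.log (p e) = 2 * (∑ e ∈ edg U, -Real.log (p e)) := rfl
  have h2 : (2 * ∑ e ∈ edg U, -Real.log (p e)) / 2 = ∑ e ∈ edg U, -Real.log (p e) := by ring
  rw [h2, Real.exp_sum, ← Finset.prod_inv_distrib]
  apply Finset.prod_congr rfl
  intro e _
  rw [Real.exp_neg, Real.exp_log (hp e)]

/-- pairs of good sequences -/
theorem pair_bound (p : Sym2 (Fin N) → ℝ) (hp : ∀ e, 0 < p e) (hp1 : ∀ e, p e ≤ 1) (k : ℕ)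
    (B : ℝ) (hB : 0 ≤ B)
    (s t : Fin k → Fin N) (hs : Function.Injective s) (hdeg : ∀ i, ∑ j, lw p (s i) (s j) ≤ B) :
    (∏ e ∈ edg (univ.image s) ∩ edg (univ.image t), p e)⁻¹ ≤
      (Real.exp (B / 2)) ^ (univ.filter (fun i => t i ∈ univ.image s)).card := by
  classical
  have hlw0 : ∀ x y, 0 ≤ lw p x y := by
    intro x y
    unfold lw
    split_ifs
    · exact le_rfl
    · have := Real.log_nonpos (hp s(x, y)).le (hp1 s(x, y))
      linarith
  rw [edg_inter, prod_inv_edg p hp]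
  set U := univ.image s ∩ univ.image t with hU
  have hcard : U.card ≤ (univ.filter (fun i => t i ∈ univ.image s)).card := by
    have hsub : U ⊆ (univ.filter (fun i => t i ∈ univ.image s)).image t := by
      intro x hx
      rw [hU, Finset.mem_inter] at hx
      obtain ⟨h1, h2⟩ := hx
      obtain ⟨i, _, hi⟩ := Finset.mem_image.mp h2
      rw [Finset.mem_image]
      refine ⟨i, ?_, hi⟩
      rw [Finset.mem_filter]
      exact ⟨Finset.mem_univ i, by rw [hi]; exact h1⟩
    exact (Finset.card_le_card hsub).trans Finset.card_image_le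
  have h3 : ∑ x ∈ U, ∑ y ∈ U, lw p x y ≤ U.card * B := by
    calc ∑ x ∈ U, ∑ y ∈ U, lw p x y ≤ ∑ x ∈ U, B := by
          apply Finset.sum_le_sum
          intro x hx
          rw [hU, Finset.mem_inter] at hx
          obtain ⟨i, _, hi⟩ := Finset.mem_image.mp hx.1
          rw [← hi]
          calc ∑ y ∈ U, lw p (s i) y ≤ ∑ y ∈ univ.image s, lw p (s i) y :=
                Finset.sum_le_sum_of_subset_of_nonneg Finset.inter_subset_left
                  (fun y _ _ => hlw0 (s i) y)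
            _ = ∑ j, lw p (s i) (s j) := by
                rw [Finset.sum_image (fun a _ b _ h => hs h)]
            _ ≤ B := hdeg i
      _ = U.card * B := by rw [Finset.sum_const, nsmul_eq_mul]
  calc Real.exp ((∑ x ∈ U, ∑ y ∈ U, lw p x y) / 2) ≤ Real.exp (U.card * (B / 2)) := by
        apply Real.exp_le_exp.mpr
        linarith
    _ = (Real.exp (B / 2)) ^ U.card := by rw [← Real.exp_nat_mul]
    _ ≤ _ := pow_le_pow_right₀ (Real.one_le_exp (by positivity)) hcard

/-- The second moment bound with explicit constants. -/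
theorem no_clique_bound (p : Sym2 (Fin N) → ℝ) (hp : ∀ e, 0 < p e) (hp1 : ∀ e, p e ≤ 1) (k : ℕ)
    (hk : 0 < k)
    (W : Finset (Fin N)) (hW : W.Nonempty) (D Λ θ ε : ℝ)
    (hD : ∀ x ∈ W, ∑ y ∈ W, lw p x y ≤ D * W.card)
    (hwΛ : ∀ x y, lw p x y ≤ Λ) (hD0 : 0 ≤ D) (hε : 0 ≤ ε)
    (hθ : 0 < θ) (hθΛ : θ * Λ ≤ 1)
    (hab : (k : ℝ) ^ 2 / W.card + k * Real.exp (-(θ * ε * k) + θ ^ 2 * Λ ^ 2 * k) < 1) :
    ∑ c ∈ univ.filter (fun c : Sym2 (Fin N) → Bool =>
        ¬ ∃ S : Finset (Fin N), S.card = k ∧ ∀ x ∈ S, ∀ y ∈ S, x ≠ y → c s(x, y) = true), wt p c ≤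
      (k : ℝ) ^ 2 / W.card + k * Real.exp (-(θ * ε * k) + θ ^ 2 * Λ ^ 2 * k) +
        (k : ℝ) ^ 2 * Real.exp ((D + ε) * k / 2) / W.card := by
  classical
  have hlw0 : ∀ x y, 0 ≤ lw p x y := by
    intro x y
    unfold lw
    split_ifs
    · exact le_rfl
    · have := Real.log_nonpos (hp s(x, y)).le (hp1 s(x, y))
      linarith
  have hn : (0:ℝ) < W.card := by exact_mod_cast hW.card_pos
  set n : ℝ := (W.card : ℝ) with hnn
  set a : ℝ := (k : ℝ) ^ 2 / n + k * Real.exp (-(θ * ε * k) + θ ^ 2 * Λ ^ 2 * k) with ha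
  set X : ℝ := Real.exp ((D + ε) * k / 2) with hX
  have hX1 : 1 ≤ X := Real.one_le_exp (by positivity)
  set T := Good k W (lw p) ((D + ε) * k) with hT
  have hgood := good_card k W hW (lw p) D Λ θ ε (lw_diag p) hD hlw0 hwΛ hD0 hk hθ hθΛ
  rw [← hT, ← hnn] at hgood
  have hTc : n ^ k * (1 - a) ≤ (T.card : ℝ) := by
    refine le_trans (le_of_eq ?_) hgood
    rw [ha]; ring
  have hTpos : (0:ℝ) < T.card := lt_of_lt_of_le (mul_pos (pow_pos hn k) (by linarith)) hTc
  have hTne : T.Nonempty := by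
    rw [← Finset.card_pos]; exact_mod_cast hTpos
  have hTmem : ∀ s ∈ T, s ∈ Seqs k W ∧ Function.Injective s ∧
      ∀ i, ∑ j, lw p (s i) (s j) ≤ (D + ε) * k := by
    intro s hs
    rw [hT] at hs
    simp only [Good, Finset.mem_filter] at hs
    exact ⟨hs.1, hs.2.1, hs.2.2⟩
  have hsm := second_moment p hp hp1 T hTne (fun s => edg (univ.image s))
  have hB : ∑ s ∈ T, ∑ t ∈ T, (∏ e ∈ edg (univ.image s) ∩ edg (univ.image t), p e)⁻¹ ≤
      T.card * (n + k * X) ^ k := by
    calc ∑ s ∈ T, ∑ t ∈ T, (∏ e ∈ edg (univ.image s) ∩ edg (univ.image t), p e)⁻¹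
        ≤ ∑ s ∈ T, (n + k * X) ^ k := by
          apply Finset.sum_le_sum
          intro s hs
          obtain ⟨_, hsi, hsd⟩ := hTmem s hs
          calc ∑ t ∈ T, (∏ e ∈ edg (univ.image s) ∩ edg (univ.image t), p e)⁻¹
              ≤ ∑ t ∈ T, X ^ (univ.filter (fun i => t i ∈ univ.image s)).card := by
                apply Finset.sum_le_sum
                intro t _
                exact pair_bound p hp hp1 k ((D + ε) * k) (by positivity) s t hsi hsd
            _ ≤ ∑ t ∈ Seqs k W, X ^ (univ.filter (fun i => t i ∈ univ.image s)).card := by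
                apply Finset.sum_le_sum_of_subset_of_nonneg
                · intro t ht; exact (hTmem t ht).1
                · intro t _ _; positivity
            _ ≤ ((W.card : ℝ) + (univ.image s).card * X) ^ k := hit_sum k W (univ.image s) X hX1
            _ = (n + k * X) ^ k := by
                rw [Finset.card_image_of_injective _ hsi, Finset.card_univ, Fintype.card_fin]
      _ = T.card * (n + k * X) ^ k := by rw [Finset.sum_const, nsmul_eq_mul]
  have hBpos : 0 < ∑ s ∈ T, ∑ t ∈ T, (∏ e ∈ edg (univ.image s) ∩ edg (univ.image t), p e)⁻¹ := by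
    apply Finset.sum_pos _ hTne
    intro s _
    apply Finset.sum_pos _ hTne
    intro t _
    exact inv_pos.mpr (Finset.prod_pos fun e _ => hp e)
  have hQpos : 0 < (n + k * X) ^ k := by positivity
  have h1 : (T.card : ℝ) / (n + k * X) ^ k ≤ (T.card : ℝ) ^ 2 /
      ∑ s ∈ T, ∑ t ∈ T, (∏ e ∈ edg (univ.image s) ∩ edg (univ.image t), p e)⁻¹ := by
    rw [div_le_div_iff₀ hQpos hBpos]
    have := mul_le_mul_of_nonneg_left hB hTpos.le
    calc (T.card : ℝ) * ∑ s ∈ T, ∑ t ∈ T, (∏ e ∈ edg (univ.image s) ∩ edg (univ.image t), p e)⁻¹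
        ≤ (T.card : ℝ) * (T.card * (n + k * X) ^ k) := this
      _ = (T.card : ℝ) ^ 2 * (n + k * X) ^ k := by ring
  set g : ℝ := (k : ℝ) ^ 2 * X / n with hg
  have hg0 : 0 ≤ g := by positivity
  -- n^k / (n+kX)^k ≥ 1 - g
  have h2 : (1 - g) * (n + k * X) ^ k ≤ n ^ k := by
    have h3 : n + k * X = n * (1 + k * X / n) := by field_simp
    have h4 : (1 + k * X / n) ^ k ≤ Real.exp g := by
      have h5 : 1 + k * X / n ≤ Real.exp (k * X / n) := by
        have := Real.add_one_le_exp (k * X / n); linarith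
      calc (1 + k * X / n) ^ k ≤ (Real.exp (k * X / n)) ^ k :=
            pow_le_pow_left₀ (by positivity) h5 k
        _ = Real.exp g := by
            rw [← Real.exp_nat_mul, hg]; congr 1; ring
    rcases le_or_gt (1 - g) 0 with hneg | hpos
    · calc (1 - g) * (n + k * X) ^ k ≤ 0 := mul_nonpos_of_nonpos_of_nonneg hneg hQpos.le
        _ ≤ n ^ k := by positivity
    · rw [h3, mul_pow]
      have h6 : (1 - g) ≤ Real.exp (-g) := by
        have := Real.add_one_le_exp (-g); linarith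
      have h7 : (1 - g) * (1 + k * X / n) ^ k ≤ 1 := by
        calc (1 - g) * (1 + k * X / n) ^ k ≤ Real.exp (-g) * Real.exp g :=
              mul_le_mul h6 h4 (by positivity) (Real.exp_pos _).le
          _ = 1 := by rw [← Real.exp_add]; simp
      calc (1 - g) * (n ^ k * (1 + k * X / n) ^ k) = n ^ k * ((1 - g) * (1 + k * X / n) ^ k) := by
            ring
        _ ≤ n ^ k * 1 := mul_le_mul_of_nonneg_left h7 (by positivity)
        _ = n ^ k := mul_one _
  have h8 : 1 - a - g ≤ (T.card : ℝ) / (n + k * X) ^ k := by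
    rw [le_div_iff₀ hQpos]
    have ha1 : 0 ≤ 1 - a := by linarith
    have ha0 : 0 ≤ a := by positivity
    calc (1 - a - g) * (n + k * X) ^ k ≤ ((1 - a) * (1 - g)) * (n + k * X) ^ k := by
          apply mul_le_mul_of_nonneg_right _ hQpos.le
          nlinarith
      _ = (1 - a) * ((1 - g) * (n + k * X) ^ k) := by ring
      _ ≤ (1 - a) * n ^ k := mul_le_mul_of_nonneg_left h2 ha1
      _ = n ^ k * (1 - a) := mul_comm _ _
      _ ≤ T.card := hTc
  have h9 : ∑ c ∈ univ.filter (fun c : Sym2 (Fin N) → Bool =>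
        ¬ ∃ S : Finset (Fin N), S.card = k ∧ ∀ x ∈ S, ∀ y ∈ S, x ≠ y → c s(x, y) = true), wt p c ≤
      ∑ c ∈ univ.filter (fun c : Sym2 (Fin N) → Bool =>
        ∀ s ∈ T, ¬ ∀ e ∈ edg (univ.image s), c e = true), wt p c := by
    apply Finset.sum_le_sum_of_subset_of_nonneg
    · intro c hc
      rw [Finset.mem_filter] at hc ⊢
      refine ⟨Finset.mem_univ _, ?_⟩
      intro s hs hall
      obtain ⟨_, hsi, _⟩ := hTmem s hs
      apply hc.2
      refine ⟨univ.image s, ?_, ?_⟩
      · rw [Finset.card_image_of_injective _ hsi, Finset.card_univ, Fintype.card_fin]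
      · intro x hx y hy hxy
        exact hall _ ((mem_edg _ x y).mpr ⟨⟨hx, hy⟩, hxy⟩)
    · intro c _ _
      exact wt_nonneg (fun e => (hp e).le) hp1 c
  have h10 : ∑ c ∈ univ.filter (fun c : Sym2 (Fin N) → Bool =>
        ∀ s ∈ T, ¬ ∀ e ∈ edg (univ.image s), c e = true), wt p c ≤
      1 - (T.card : ℝ) ^ 2 /
      ∑ s ∈ T, ∑ t ∈ T, (∏ e ∈ edg (univ.image s) ∩ edg (univ.image t), p e)⁻¹ := by
    convert hsm
  have h11 : a + g = a + (k : ℝ) ^ 2 * X / n := by rw [hg]
  linarith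

end Pool.Agent.H111N
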