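import Mathlib
import Pool.Agent.H111N.Edges
import Pool.Agent.H111N.Clean

set_option autoImplicit false

/-!
# Red cliques, red/blue symmetry
-/

namespace Pool.Agent.H111N

open Finset

theorem tends_aux (C c : ℝ) (hc : 0 < c) :
    Filter.Tendsto (fun k : ℕ => C * ((k : ℝ) ^ 2 * Real.exp (-(c * k)))) Filter.atTop (nhds 0) := by
  have h1 := Real.tendsto_pow_mul_exp_neg_atTop_nhds_zero 2
  have h2 : Filter.Tendsto (fun k : ℕ => c * (k : ℝ)) Filter.atTop Filter.atTop :=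
    Filter.Tendsto.const_mul_atTop hc tendsto_natCast_atTop_atTop
  have h3 := (h1.comp h2).const_mul (C / c ^ 2)
  rw [mul_zero] at h3
  refine h3.congr ?_
  intro k
  simp only [Function.comp]
  field_simp

theorem red (δ M β ε : ℝ) (hδ : 0 < δ) (hM : 0 ≤ M) (hβ0 : 0 < β) (hβ : M / 2 < Real.log β)
    (hε : 0 < ε) :
    ∃ k₀ : ℕ, ∀ k : ℕ, k₀ ≤ k → ∀ N : ℕ, β ^ k ≤ (N : ℝ) → ∀ p : Sym2 (Fin N) → ℝ,
      (∀ e, δ ≤ p e) → (∀ e, p e ≤ 1) →
      ∑ e : Sym2 (Fin N) with ¬ e.IsDiag, -Real.log (p e) ≤ M * (N.choose 2 : ℕ) →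
      ∑ c ∈ univ.filter (fun c : Sym2 (Fin N) → Bool =>
        ¬ ∃ S : Finset (Fin N), S.card = k ∧ ∀ x ∈ S, ∀ y ∈ S, x ≠ y → c s(x, y) = true), wt p c ≤
        ε := by
  set η : ℝ := Real.log β - M / 2 with hη
  have hηpos : 0 < η := by rw [hη]; linarith
  set Λ : ℝ := 1 + |Real.log δ| with hΛ
  have hΛ1 : 1 ≤ Λ := by rw [hΛ]; have := abs_nonneg (Real.log δ); linarith
  set ε' : ℝ := η / 2 with hε'
  have hε'pos : 0 < ε' := by positivity
  set θ : ℝ := min (1 / Λ) (ε' / (2 * Λ ^ 2)) with hθ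
  have hθpos : 0 < θ := by
    rw [hθ]; apply lt_min <;> positivity
  have hθΛ : θ * Λ ≤ 1 := by
    have h1 : θ ≤ 1 / Λ := min_le_left _ _
    calc θ * Λ ≤ 1 / Λ * Λ := mul_le_mul_of_nonneg_right h1 (by linarith)
      _ = 1 := by field_simp
  have hθ2 : θ ^ 2 * Λ ^ 2 ≤ θ * ε' / 2 := by
    have h1 : θ ≤ ε' / (2 * Λ ^ 2) := min_le_right _ _
    have h2 : θ * Λ ^ 2 ≤ ε' / 2 := by
      calc θ * Λ ^ 2 ≤ ε' / (2 * Λ ^ 2) * Λ ^ 2 := mul_le_mul_of_nonneg_right h1 (by positivity)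
        _ = ε' / 2 := by field_simp
    calc θ ^ 2 * Λ ^ 2 = θ * (θ * Λ ^ 2) := by ring
      _ ≤ θ * (ε' / 2) := mul_le_mul_of_nonneg_left h2 hθpos.le
      _ = θ * ε' / 2 := by ring
  set c₁ : ℝ := η / 2 with hc1
  set c₂ : ℝ := θ * ε' / 2 with hc2
  have hc1pos : 0 < c₁ := by positivity
  have hc2pos : 0 < c₂ := by positivity
  set C : ℝ := Real.exp (M / η) with hC
  have hlim1 := tends_aux (2 * C) c₁ hc1pos
  have hlim2 := tends_aux 1 c₂ hc2pos
  have hlim := hlim1.add hlim2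
  rw [add_zero] at hlim
  have hm : 0 < min ε (1 / 2) := lt_min hε (by norm_num)
  have hev := hlim.eventually_lt_const hm
  obtain ⟨k₁, hk₁⟩ := Filter.eventually_atTop.mp hev
  refine ⟨max k₁ 1, ?_⟩
  intro k hk N hN p hpδ hp1 hsum
  have hk1 : k₁ ≤ k := (le_max_left _ _).trans hk
  have hkpos : 0 < k := lt_of_lt_of_le Nat.one_pos ((le_max_right _ _).trans hk)
  have hkR : (1:ℝ) ≤ k := by exact_mod_cast hkpos
  have hkk := hk₁ k hk1
  have hp : ∀ e, 0 < p e := fun e => lt_of_lt_of_le hδ (hpδ e)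
  have hNR : (0:ℝ) < N := lt_of_lt_of_le (pow_pos hβ0 k) hN
  have hNpos : 0 < N := by exact_mod_cast hNR
  have : Nonempty (Fin N) := ⟨⟨0, hNpos⟩⟩
  have hlw0 : ∀ x y, 0 ≤ lw p x y := by
    intro x y
    unfold lw
    split_ifs
    · exact le_rfl
    · have := Real.log_nonpos (hp s(x, y)).le (hp1 s(x, y))
      linarith
  have hlwΛ : ∀ x y, lw p x y ≤ Λ := by
    intro x y
    unfold lw
    split_ifs
    · linarith
    · have h1 := Real.log_le_log hδ (hpδ s(x, y))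
      have h2 := neg_abs_le (Real.log δ)
      rw [hΛ]; linarith
  have htot : tot (lw p) univ ≤ M * (Fintype.card (Fin N) : ℝ) ^ 2 := by
    have h1 := sum_edg p (univ : Finset (Fin N))
    have h2 : edg (univ : Finset (Fin N)) = univ.filter (fun e : Sym2 (Fin N) => ¬ e.IsDiag) := by
      unfold edg
      rw [Finset.sym2_univ]
    rw [h2] at h1
    unfold tot
    rw [← h1, Fintype.card_fin]
    have h3 : ((N.choose 2 : ℕ) : ℝ) ≤ (N : ℝ) ^ 2 / 2 := by
      rw [Nat.cast_choose_two]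
      have : (0:ℝ) ≤ N := hNR.le
      nlinarith
    have h4 := mul_le_mul_of_nonneg_left h3 hM
    linarith
  obtain ⟨W, hWne, hWcard, hWdeg⟩ := clean (lw p) (lw_symm p) (lw_diag p) hlw0 M η hηpos htot
  rw [Fintype.card_fin] at hWcard
  have hn : (0:ℝ) < W.card := by exact_mod_cast hWne.card_pos
  have hlogβ : Real.log β = M / 2 + η := by rw [hη]; ring
  have hβk : β ^ k = Real.exp (k * (M / 2 + η)) := by
    rw [← hlogβ, Real.exp_nat_mul, Real.exp_log hβ0]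
  have hnlow : Real.exp (k * (M / 2 + η)) * Real.exp (-(M / η)) ≤ W.card := by
    refine le_trans ?_ hWcard
    rw [← hβk]
    exact mul_le_mul_of_nonneg_right hN (Real.exp_pos _).le
  have hX : Real.exp ((M + η / 2 + ε') * k / 2) / W.card ≤ C * Real.exp (-(c₁ * k)) := by
    rw [div_le_iff₀ hn]
    calc Real.exp ((M + η / 2 + ε') * k / 2)
        = C * Real.exp (-(c₁ * k)) * (Real.exp (k * (M / 2 + η)) * Real.exp (-(M / η))) := by
          rw [hC, ← Real.exp_add, ← Real.exp_add, ← Real.exp_add]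
          congr 1
          rw [hc1, hε']; ring
      _ ≤ C * Real.exp (-(c₁ * k)) * W.card := by
          apply mul_le_mul_of_nonneg_left hnlow (by positivity)
  have hX1 : 1 / (W.card : ℝ) ≤ C * Real.exp (-(c₁ * k)) := by
    refine le_trans ?_ hX
    apply div_le_div_of_nonneg_right _ hn.le
    exact Real.one_le_exp (by positivity)
  have hk2 : (k : ℝ) ≤ (k : ℝ) ^ 2 := by nlinarith
  have hb : k * Real.exp (-(θ * ε' * k) + θ ^ 2 * Λ ^ 2 * k) ≤
      (k : ℝ) ^ 2 * Real.exp (-(c₂ * k)) := by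
    apply mul_le_mul hk2 _ (Real.exp_pos _).le (by positivity)
    apply Real.exp_le_exp.mpr
    have := mul_le_mul_of_nonneg_right hθ2 (by linarith : (0:ℝ) ≤ k)
    rw [hc2] at this ⊢
    linarith
  have ha1 : (k : ℝ) ^ 2 / W.card ≤ C * ((k : ℝ) ^ 2 * Real.exp (-(c₁ * k))) := by
    calc (k : ℝ) ^ 2 / W.card = (k : ℝ) ^ 2 * (1 / W.card) := by ring
      _ ≤ (k : ℝ) ^ 2 * (C * Real.exp (-(c₁ * k))) := mul_le_mul_of_nonneg_left hX1 (by positivity)
      _ = _ := by ring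
  have ha2 : (k : ℝ) ^ 2 * Real.exp ((M + η / 2 + ε') * k / 2) / W.card ≤
      C * ((k : ℝ) ^ 2 * Real.exp (-(c₁ * k))) := by
    calc (k : ℝ) ^ 2 * Real.exp ((M + η / 2 + ε') * k / 2) / W.card
        = (k : ℝ) ^ 2 * (Real.exp ((M + η / 2 + ε') * k / 2) / W.card) := by ring
      _ ≤ (k : ℝ) ^ 2 * (C * Real.exp (-(c₁ * k))) := mul_le_mul_of_nonneg_left hX (by positivity)
      _ = _ := by ring
  have hY0 : 0 ≤ C * ((k : ℝ) ^ 2 * Real.exp (-(c₁ * k))) := by positivity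
  have hmin1 : min ε (1 / 2) ≤ ε := min_le_left _ _
  have hmin2 : min ε (1 / 2) ≤ 1 / 2 := min_le_right _ _
  have hfin := no_clique_bound p hp hp1 k hkpos W hWne (M + η / 2) Λ θ ε' hWdeg hlwΛ
    (by positivity) hε'pos.le hθpos hθΛ (by linarith)
  linarith

/-- red/blue symmetry -/
theorem wt_flip {E : Type*} [Fintype E] (p : E → ℝ) (c : E → Bool) :
    wt (fun e => 1 - p e) (fun e => !c e) = wt p c := by
  unfold wt
  apply Finset.prod_congr rfl
  intro e _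
  by_cases h : c e = true
  · simp [h]
  · rw [Bool.not_eq_true] at h
    simp [h]

theorem blue (δ M β ε : ℝ) (hδ : 0 < δ) (hM : 0 ≤ M) (hβ0 : 0 < β) (hβ : M / 2 < Real.log β)
    (hε : 0 < ε) :
    ∃ k₀ : ℕ, ∀ k : ℕ, k₀ ≤ k → ∀ N : ℕ, β ^ k ≤ (N : ℝ) → ∀ p : Sym2 (Fin N) → ℝ,
      (∀ e, 0 ≤ p e) → (∀ e, p e ≤ 1 - δ) →
      ∑ e : Sym2 (Fin N) with ¬ e.IsDiag, -Real.log (1 - p e) ≤ M * (N.choose 2 : ℕ) →
      ∑ c ∈ univ.filter (fun c : Sym2 (Fin N) → Bool =>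
        ¬ ∃ S : Finset (Fin N), S.card = k ∧ ∀ x ∈ S, ∀ y ∈ S, x ≠ y → c s(x, y) = false), wt p c ≤
        ε := by
  obtain ⟨k₀, hk₀⟩ := red δ M β ε hδ hM hβ0 hβ hε
  refine ⟨k₀, ?_⟩
  intro k hk N hN p hp0 hp1 hsum
  have h := hk₀ k hk N hN (fun e => 1 - p e) (fun e => by have := hp1 e; linarith)
    (fun e => by have := hp0 e; linarith) hsum
  refine le_trans (le_of_eq ?_) h
  apply Finset.sum_nbij' (fun c e => !c e) (fun c e => !c e)
  · intro c hc
    rw [Finset.mem_filter] at hc ⊢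
    refine ⟨Finset.mem_univ _, ?_⟩
    simpa using hc.2
  · intro c hc
    rw [Finset.mem_filter] at hc ⊢
    refine ⟨Finset.mem_univ _, ?_⟩
    simpa using hc.2
  · intro c _; funext e; simp
  · intro c _; funext e; simp
  · intro c _
    exact (wt_flip p c).symm

end Pool.Agent.H111N
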